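import Mathlib
import Pool.Agent.H243.RP.Q19
set_option autoImplicit false

/-!
# The restriction conjecture for the paraboloid: factors of one angular momentum

Let `n = d - 1 ≥ 2` and `q > 2d/(d-1)`, the full conjectured range. A function on `ℝ^k`, `k ≥ 2`, has
angular momentum `l` about the point `c` if its restriction to every sphere about `c` is a spherical
harmonic of degree `l` (for `k = 2`: `f(c + r e^{iθ}) = a(r) e^{ilθ} + b(r) e^{-ilθ}`; the radial
functions are the case `l = 0`). No regularity in the radial variable is assumed, and the harmonics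
on different spheres are unrelated.

The theorem is the extension estimate for `f(ξ) = M(F_1(ξ_{B_1}), …, F_r(ξ_{B_r}))`, where the
coordinates are grouped into blocks `B_j` of sizes `k_j`, `M` is a bounded multilinear form on a
Hilbert space, `F_j` is an arbitrary bounded measurable function with values in the Hilbert space if
`k_j = 1` and, if `k_j ≥ 2`, a scalar function of an arbitrary angular momentum `l_j` about an
arbitrary centre `c_j`, times a unit vector. The constant depends on `n` and `q` only, and the factors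
with `k_j ≥ 2` enter by their norms in `L^2` and `L^(p_j)`, `p_j = 2 + (q-2) n / k_j`. For one block
(`r = 1`) this is the inequality `∫ |Ef|^q ≤ C ∫ |f|^q`, uniformly in the angular momentum and the
centre.
-/

namespace Pool.Agent.Results.MP_b7167f_an.AngularMomentum

open MeasureTheory Set Complex
open scoped ENNReal NNReal

/-- The extension operator of the truncated paraboloid in `ℝ^(n+1)`:
`Ef(x,t) = ∫_{[-1,1]^n} exp(2πi(ξ·x + |ξ|² t)) f(ξ) dξ`. -/
noncomputable def ext {n : ℕ} (f : (Fin n → ℝ) → ℂ) (y : (Fin n → ℝ) × ℝ) : ℂ :=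
  ∫ ξ in Icc (-1 : Fin n → ℝ) 1,
    cexp (2 * Real.pi * I * ((∑ j, ξ j * y.1 j + (∑ j, ξ j ^ 2) * y.2 : ℝ) : ℂ)) * f ξ

/-- `f` has angular momentum `l` about `c`: on every sphere about `c` it agrees with a harmonic
homogeneous polynomial of degree `l` in `ξ - c`. -/
def Momentum {k : ℕ} (l : ℕ) (c : Fin k → ℝ) (f : (Fin k → ℝ) → ℂ) : Prop :=
  ∀ r : ℝ, 0 < r → ∃ P : MvPolynomial (Fin k) ℂ, P.IsHomogeneous l ∧
    ∑ i, MvPolynomial.pderiv i (MvPolynomial.pderiv i P) = 0 ∧
    ∀ ξ : Fin k → ℝ, ∑ i, (ξ i - c i) ^ 2 = r ^ 2 →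
      f ξ = MvPolynomial.eval (fun i => ((ξ i - c i : ℝ) : ℂ)) P

/-- The factors: square integrable, vanishing outside the cube `[-1,1]^k`, with values in the unit
ball if there is one coordinate and, if there are at least two coordinates, of the form `G(η) v` with
a unit vector `v` and a scalar function `G` of some angular momentum about some point of the cube. -/
def Factor {H : Type} [NormedAddCommGroup H] [InnerProductSpace ℂ H] {k : ℕ}
    (F : (Fin k → ℝ) → H) : Prop :=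
  StronglyMeasurable F ∧ MemLp F 2 volume ∧ (∀ η, η ∉ Icc (-1 : Fin k → ℝ) 1 → F η = 0) ∧
    (k = 1 → ∀ η, ‖F η‖ ≤ 1) ∧
    (2 ≤ k → ∃ (l : ℕ) (c : Fin k → ℝ) (G : (Fin k → ℝ) → ℂ) (v : H), c ∈ Icc (-1 : Fin k → ℝ) 1 ∧
      Momentum l c G ∧ ‖v‖ = 1 ∧ ∀ η, F η = G η • v)

/-- The size of a factor: `1` for one coordinate and
`(∫ ‖F‖²)^(1 - k/n) (∫ ‖F‖^p)^(k/n)`, `p = 2 + (q - 2) n / k`, otherwise. For `k = n` this is
`∫ ‖F‖^q`. -/
noncomputable def size {H : Type} [NormedAddCommGroup H] (n : ℕ) (q : ℝ) {k : ℕ}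
    (F : (Fin k → ℝ) → H) : ℝ≥0∞ :=
  if k = 1 then 1 else (∫⁻ η, ‖F η‖ₑ ^ 2) ^ (1 - (k : ℝ) / n) *
    (∫⁻ η, ‖F η‖ₑ ^ (2 + (q - 2) * n / k)) ^ ((k : ℝ) / n)

theorem result (n : ℕ) (hn : 2 ≤ n) (q : ℝ) (hq : 2 * ((n : ℝ) + 1) / n < q) :
    ∃ C : ℝ≥0, ∀ (r : ℕ) (k : Fin r → ℕ) (e : (Σ j, Fin (k j)) ≃ Fin n), (∀ j, 0 < k j) →
      ∀ (H : Type) [NormedAddCommGroup H] [InnerProductSpace ℂ H] [CompleteSpace H]
      (M : ContinuousMultilinearMap ℂ (fun _ : Fin r => H) ℂ) (F : ∀ j, (Fin (k j) → ℝ) → H),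
      (∀ x, ‖M x‖ ≤ ∏ m, ‖x m‖) → (∀ j, Factor (F j)) →
      ∫⁻ y : (Fin n → ℝ) × ℝ, ‖ext (fun ξ => M fun j => F j fun i => ξ (e ⟨j, i⟩)) y‖ₑ ^ q ≤
        C * ∏ j, size n q (F j) := by
  obtain ⟨C, h2⟩ := Pool.Agent.H243.RP.blocks n hn q hq
  refine ⟨C, ?_⟩
  intro r k e hk H _ _ _ M F hM hF
  have hM1 : ‖M‖ ≤ 1 := by
    apply ContinuousMultilinearMap.opNorm_le_bound zero_le_one
    intro x
    rw [one_mul]
    exact hM x
  exact h2 r k e hk H M F hM1 hF

end Pool.Agent.Results.MP_b7167f_an.AngularMomentum
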