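import Pool.Agent.H474.FK.Smooth

set_option autoImplicit false

/-! # The restriction conjecture for the paraboloid on Bargmann-Fock spaces

`d = 2m + 1`, `ℝ^(2m) = ℂ^m`. The densities are `f(z) = F(z) e^(-κ|z|²)` with `F` an entire function on `ℂ^m` and `Re κ > 0`. -/

namespace Pool.Agent.Results.MP_b7167f_an.BargmannFock

open MeasureTheory Complex
open scoped ComplexConjugate ENNReal ContDiff

/-- `ℂ^m`, which is `ℝ^(2m)` with its Lebesgue measure. -/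
abbrev Cm (m : ℕ) := Fin m → ℂ

variable {m : ℕ}

/-- The square `|z|²` of the euclidean norm. -/
noncomputable def nsq (z : Cm m) : ℝ := ∑ j, ‖z j‖ ^ 2

/-- The euclidean inner product `⟨z, x⟩ = Re ∑ z_j conj(x_j)` of `ℝ^(2m)`. -/
noncomputable def ip (z x : Cm m) : ℝ := ∑ j, (z j * conj (x j)).re

/-- The extension operator of the paraboloid: `Ef(x, t) = ∫ f(z) e^(2πi(⟨z,x⟩ + t|z|²)) dz`, `x ∈ ℝ^(2m)`, `t ∈ ℝ`. For `f` vanishing off
the cube `[-1,1]^(2m)` this is the operator of the problem, `d = 2m + 1`. -/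
noncomputable def ext (f : Cm m → ℂ) (y : Cm m × ℝ) : ℂ :=
  ∫ z, f z * cexp (2 * Real.pi * I * (ip z y.1 + y.2 * nsq z))

/-- The function `F(z) e^(-κ|z|²)`. -/
noncomputable def fock (κ : ℂ) (F : Cm m → ℂ) (z : Cm m) : ℂ := F z * cexp (-(κ * nsq z))

/-- The constant `K(r) = ∫ (1+s²)^(-r/2) ds`, finite for `r > 1`. -/
noncomputable def K (r : ℝ) : ℝ := ∫ s : ℝ, (1 + s ^ 2) ^ (-r / 2)

/-- **Theorem.** Let `m ≥ 1`, `d = 2m + 1` and `q > 2d/(d-1) = 2 + 1/m`.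

(A) Let `F` be entire on `ℂ^m`, `Re κ > 0`, and let `f(z) = F(z) e^(-κ|z|²)` be integrable. Then for all `x, t`, with `b = κ/π - 2it`,
`|Ef(x,t)| = |b|^(-m) |f(ix/b)|`; for all `r ≥ 0` and all measurable weights `w ≥ 0` we have
`∫ |Ef|^r w = ∫ |f(v)|^r (∫ |b|^(-m(r-2)) w(-ibv, t) dt) dv`, where `-ibv = -(iκ/π + 2t)v`, so that for `r = 2` the inner integral is that of
`w` over a line in the direction `(-2v, 1)`, and the inequality of Mizohata-Takeuchi type `∫ |Ef|² w ≤ S ∫ |f|²` holds if these integrals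
are at most `S`; `∫ |Ef|^q = (Re κ/π)^(1-m(q-2)) K(m(q-2))/2 · ∫ |f|^q`; and if `p > 1` is the exponent of the scaling
line, `m q (1 - 1/p) = m + 1` (that is, `q = (d+1)/(d-1) p'`), then `∫ |Ef|^q ≤ C (∫ |f|^p)^(q/p)`, with the constant
`C = K(m(q-2))/2 · p^(m(q-p)/p)`, which does not depend on `F` and `κ`.

(B) For every smooth function `χ` with compact support there is a constant `C` such that, for all entire functions `F` on `ℂ^m` and all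
`κ` with `Re κ ≥ 0` for which `h(z) = F(z) e^(-κ|z|²)` satisfies `|h| ≤ 1` on `ℂ^m`, `∫ |E(χh)|^q ≤ C (1 + Re κ)^(1-m(q-2))`; the exponent
is negative. If `χ` vanishes off the cube then `E(χh)` is that of the problem. -/
theorem result (m : ℕ) (hm : 1 ≤ m) (q : ℝ) (hq : 2 + 1 / (m : ℝ) < q) :
    (∀ (κ : ℂ) (F : Cm m → ℂ), 0 < κ.re → Differentiable ℂ F → Integrable (fock κ F) →
      (∀ (x : Cm m) (t : ℝ), ‖ext (fock κ F) (x, t)‖ =
        (‖κ / Real.pi - 2 * I * t‖⁻¹) ^ m * ‖fock κ F ((I / (κ / Real.pi - 2 * I * t)) • x)‖) ∧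
      (∀ (r : ℝ) (w : Cm m × ℝ → ℝ≥0∞), 0 ≤ r → Measurable w → ∫⁻ y : Cm m × ℝ, ‖ext (fock κ F) y‖ₑ ^ r * w y =
        ∫⁻ v, ‖fock κ F v‖ₑ ^ r * ∫⁻ t : ℝ, ENNReal.ofReal (‖κ / Real.pi - 2 * I * t‖ ^ (-(m * (r - 2)))) *
          w (-(I * κ / Real.pi + 2 * t) • v, t)) ∧
      (∀ (w : Cm m × ℝ → ℝ≥0∞) (S : ℝ≥0∞), Measurable w → (∀ v : Cm m, ∫⁻ t : ℝ, w (-(I * κ / Real.pi + 2 * t) • v, t) ≤ S) →
        ∫⁻ y : Cm m × ℝ, ‖ext (fock κ F) y‖ₑ ^ (2 : ℝ) * w y ≤ S * ∫⁻ v, ‖fock κ F v‖ₑ ^ (2 : ℝ)) ∧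
      (∫⁻ y : Cm m × ℝ, ‖ext (fock κ F) y‖ₑ ^ q =
        ENNReal.ofReal ((κ.re / Real.pi) ^ (1 - m * (q - 2)) * (K (m * (q - 2)) / 2)) * ∫⁻ z, ‖fock κ F z‖ₑ ^ q) ∧
      (∀ p : ℝ, 1 < p → m * q * (1 - 1 / p) = m + 1 → ∫⁻ y : Cm m × ℝ, ‖ext (fock κ F) y‖ₑ ^ q ≤
        ENNReal.ofReal (K (m * (q - 2)) / 2 * p ^ (m * (q - p) / p)) * (∫⁻ z, ‖fock κ F z‖ₑ ^ p) ^ (q / p))) ∧
    (∀ χ : Cm m → ℂ, ContDiff ℝ ∞ χ → HasCompactSupport χ → ∃ C : ℝ, 0 ≤ C ∧ ∀ (κ : ℂ) (F : Cm m → ℂ),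
      0 ≤ κ.re → Differentiable ℂ F → (∀ z, ‖fock κ F z‖ ≤ 1) →
        ∫⁻ y : Cm m × ℝ, ‖ext (fun z => χ z * fock κ F z) y‖ₑ ^ q ≤ ENNReal.ofReal (C * (κ.re + 1) ^ (1 - m * (q - 2)))) := by
  have hm0 : (0 : ℝ) < m := by exact_mod_cast hm
  have hr : 1 < m * (q - 2) := by
    have h1 := mul_lt_mul_of_pos_left hq hm0
    have h2 : m * (2 + 1 / (m : ℝ)) = 2 * m + 1 := by field_simp
    linarith
  have hq1 : 1 < q := by
    have : 0 < 1 / (m : ℝ) := by positivity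
    linarith
  have hwt : ∀ (κ : ℂ) (F : Cm m → ℂ), 0 < κ.re → Differentiable ℂ F → Integrable (fock κ F) →
      ∀ (r : ℝ) (w : Cm m × ℝ → ℝ≥0∞), 0 ≤ r → Measurable w → ∫⁻ y : Cm m × ℝ, ‖ext (fock κ F) y‖ₑ ^ r * w y =
        ∫⁻ v, ‖fock κ F v‖ₑ ^ r * ∫⁻ t : ℝ, ENNReal.ofReal (‖κ / Real.pi - 2 * I * t‖ ^ (-(m * (r - 2)))) *
          w (-(I * κ / Real.pi + 2 * t) • v, t) := by
    intro κ F hκ hF hi r w hr0 hw
    refine (Pool.Agent.H474.FK.ext_weight hκ hF hi hr0 hw).trans ?_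
    refine lintegral_congr fun v => ?_
    congr 1
    refine lintegral_congr fun t => ?_
    have e : Pool.Agent.H474.FK.bb κ t / I = -(I * κ / Real.pi + 2 * t) := by
      unfold Pool.Agent.H474.FK.bb
      rw [Complex.div_I]
      linear_combination (2 * (t : ℂ)) * Complex.I_sq
    rw [e]
    rfl
  refine ⟨fun κ F hκ hF hi => ⟨fun x t => Pool.Agent.H474.FK.ext_fock hκ hF hi (x, t), hwt κ F hκ hF hi, fun w S hw hS => ?_, ?_,
    fun p hp hpq => ?_⟩, fun χ h1 h2 => Pool.Agent.H474.FK.smooth_cut h1 h2 hq1 hr⟩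
  · rw [hwt κ F hκ hF hi 2 w (by norm_num) hw, mul_comm S, ← lintegral_mul_const]
    · refine lintegral_mono fun v => ?_
      gcongr
      refine (lintegral_mono fun t => ?_).trans (hS v)
      simp
    · exact (Pool.Agent.H474.FK.fock_cont (κ := κ) hF).measurable.enorm.pow_const _
  · have h1 := Pool.Agent.H474.FK.ext_lint hκ hF hi (q := q) (by linarith)
    rw [Pool.Agent.H474.FK.t_lint hκ hr] at h1
    refine h1.trans ?_
    have e : (κ.re / Real.pi) ^ (1 - m * (q - 2)) / 2 * Pool.Agent.H474.FK.KK (m * (q - 2)) =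
        (κ.re / Real.pi) ^ (1 - m * (q - 2)) * (K (m * (q - 2)) / 2) := by
      show _ / 2 * K (m * (q - 2)) = _
      ring
    rw [e]
    rfl
  · have h1 := Pool.Agent.H474.FK.scaling hm hκ hF hi hp hq hpq
    refine h1.trans (le_of_eq ?_)
    rw [← ENNReal.rpow_mul, one_div, inv_mul_eq_div]
    rfl

end Pool.Agent.Results.MP_b7167f_an.BargmannFock
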