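import Pool.Agent.H272.RD.Fin

/-!
# The restriction conjectures for the paraboloids of different dimensions

Let `n = d - 1` and let `ext` be the extension operator of the truncated paraboloid in
`ℝ^d = ℝ^n × ℝ`. Write `Loss n q τ` for the local estimate
`∫_{B_R} |ext f|^q ≤ C R^τ` (all measurable `|f| ≤ 1`, all `R ≥ 1`), and `Estimate n q` for the
estimate of the restriction conjecture, `‖ext f‖_q ≤ C ‖f‖_∞`.

The losses in two dimensions are compared in both directions: for all `n`, `k`, `q ≥ 2`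
a loss `R^τ` for `n` gives the same loss for `n + k`, and a loss `R^τ` for `n + k` gives the loss
`R^(τ + k(q/2-1))` for `n`.

The conjectured (best possible) loss is `τ = max(0, n + 1 - qn/2)`. `Sharp n q` says that it is
attained up to `R^ε`. The restriction conjecture (Q1) in one single dimension `n + 1` is
equivalent to `Sharp n q` for all `q ≥ 2`. For a fixed `q`, sharpness passes to all lower dimensions
below the critical exponent, and to all higher dimensions above the critical exponent. Hence Q1 in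
the dimension `n + k + 1` implies the sharp local estimates for `2 ≤ q ≤ 2(n+k+1)/(n+k)` in the
dimension `n + 1`.
-/

open MeasureTheory Set Filter Metric
open scoped ENNReal NNReal

namespace Pool.Agent.Results.MP_b7167f_an.DimensionChange

/-- Euclidean space `ℝ^n` -/
abbrev Eu (n : ℕ) := EuclideanSpace ℝ (Fin n)

/-- the cube `[-1,1]^n` -/
def cube (n : ℕ) : Set (Eu n) := {ξ | ∀ i, |ξ i| ≤ 1}

/-- the extension operator of the paraboloid in `ℝ^d = ℝ^n × ℝ` -/
noncomputable def ext {n : ℕ} (f : Eu n → ℂ) (x : Eu n × ℝ) : ℂ :=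
  ∫ ξ in cube n, f ξ *
    Complex.exp ((2 * Real.pi * (inner ℝ ξ x.1 + ‖ξ‖ ^ 2 * x.2) : ℝ) * Complex.I)

/-- `f` is measurable and bounded by one -/
def Unit {n : ℕ} (f : Eu n → ℂ) : Prop := Measurable f ∧ ∀ ξ, ‖f ξ‖ ≤ 1

/-- the extension estimate for all bounded functions -/
def Estimate (n : ℕ) (q : ℝ) : Prop :=
  ∃ C : ℝ≥0, ∀ f : Eu n → ℂ, Unit f → (∫⁻ x, ‖ext f x‖ₑ ^ q) ≤ C

/-- the extension estimate with the loss `R^τ` for all bounded functions -/
def Loss (n : ℕ) (q τ : ℝ) : Prop :=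
  ∃ C : ℝ≥0, ∀ f : Eu n → ℂ, Unit f → ∀ R : ℝ, 1 ≤ R →
    (∫⁻ x in closedBall (0 : Eu n × ℝ) R, ‖ext f x‖ₑ ^ q) ≤ C * ENNReal.ofReal (R ^ τ)

/-- the exponent `2d/(d-1)`, `d = n + 1` -/
noncomputable def critical (n : ℕ) : ℝ := 2 * ((n : ℝ) + 1) / n

/-- the restriction conjecture (Q1) in the dimension `d = n + 1` -/
def Conjecture (n : ℕ) : Prop := ∀ q : ℝ, critical n < q → Estimate n q

/-- the local estimate with the conjectured loss, up to `R^ε` -/
def Sharp (n : ℕ) (q : ℝ) : Prop :=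
  ∀ ε : ℝ, 0 < ε → Loss n q (max 0 ((n : ℝ) + 1 - q * n / 2) + ε)

theorem estimate_iff {n : ℕ} {q : ℝ} : Estimate n q ↔ Pool.Agent.H272.RD.Estimate n q := by
  constructor
  · rintro ⟨C, hC⟩
    exact ⟨C, fun f h1 h2 => hC f ⟨h1, h2⟩⟩
  · rintro ⟨C, hC⟩
    exact ⟨C, fun f h => hC f h.1 h.2⟩

theorem loss_iff {n : ℕ} {q τ : ℝ} : Loss n q τ ↔ Pool.Agent.H272.RD.Loc n q τ := by
  constructor
  · rintro ⟨C, hC⟩
    exact ⟨C, fun f h1 h2 => hC f ⟨h1, h2⟩⟩
  · rintro ⟨C, hC⟩
    exact ⟨C, fun f h => hC f h.1 h.2⟩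

theorem sharp_iff {n : ℕ} {q : ℝ} : Sharp n q ↔ Pool.Agent.H272.RD.Sharp n q := by
  unfold Sharp Pool.Agent.H272.RD.Sharp
  simp only [loss_iff]

theorem conjecture_iff {n : ℕ} : Conjecture n ↔ Pool.Agent.H272.RD.Q1At n := by
  unfold Conjecture Pool.Agent.H272.RD.Q1At
  simp only [estimate_iff]
  rfl

/-- **The restriction conjectures for the paraboloids of different dimensions.** -/
theorem result :
    -- comparison of the losses in two dimensions
    (∀ (n k : ℕ) (q τ : ℝ), 2 ≤ q →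
      (Loss n q τ → Loss (n + k) q τ) ∧ (Loss (n + k) q τ → Loss n q (τ + k * (q / 2 - 1)))) ∧
    (∀ (n k : ℕ) (q : ℝ), 2 ≤ q → Estimate n q → Estimate (n + k) q) ∧
    -- the losses are at least the conjectured ones
    (∀ (n : ℕ) (q τ : ℝ), 2 ≤ q → Loss n q τ → max 0 ((n : ℝ) + 1 - q * n / 2) ≤ τ) ∧
    -- the conjecture says that all exponents are sharp
    (∀ n : ℕ, 1 ≤ n → (Conjecture n ↔ ∀ q : ℝ, 2 ≤ q → Sharp n q)) ∧
    -- sharpness passes to lower dimensions below the critical exponent, and to higher ones above it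
    (∀ (n k : ℕ) (q : ℝ), 1 ≤ n → 2 ≤ q → q ≤ critical (n + k) → Sharp (n + k) q → Sharp n q) ∧
    (∀ (n k : ℕ) (q : ℝ), 1 ≤ n → critical n ≤ q → Sharp n q → Sharp (n + k) q) ∧
    -- so the conjecture in one dimension implies the sharp bounds in all lower dimensions
    (∀ (n k : ℕ) (q : ℝ), 1 ≤ n → 2 ≤ q → q ≤ critical (n + k) → Conjecture (n + k) → Sharp n q) := by
  refine ⟨fun n k q τ hq => ⟨?_, ?_⟩, ?_, ?_, ?_, ?_, ?_, ?_⟩
  · simp only [loss_iff]; exact Pool.Agent.H272.RD.loc_up hq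
  · simp only [loss_iff]; exact Pool.Agent.H272.RD.loc_down_k hq k
  · intro n k q hq
    simp only [estimate_iff]; exact Pool.Agent.H272.RD.est_up hq
  · intro n q τ hq h
    rw [loss_iff] at h
    exact max_le (Pool.Agent.H272.RD.loc_nonneg hq h) (Pool.Agent.H272.RD.loc_lower hq h)
  · intro n hn
    simp only [conjecture_iff, sharp_iff]
    exact Pool.Agent.H272.RD.q1_sharp hn
  · intro n k q hn hq hc
    simp only [sharp_iff]
    exact Pool.Agent.H272.RD.sharp_down hn hq hc
  · intro n k q hn hc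
    simp only [sharp_iff]
    exact Pool.Agent.H272.RD.sharp_up hn hc
  · intro n k q hn hq hc
    simp only [sharp_iff, conjecture_iff]
    exact Pool.Agent.H272.RD.q1_down hn hq hc

end Pool.Agent.Results.MP_b7167f_an.DimensionChange
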