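import Pool.Agent.H222.ER.Fin

/-!
# The restriction conjecture for the paraboloid: phases with finitely many bounded derivatives

Let `n = d - 1` and let `ext` be the extension operator of the truncated paraboloid in `ℝ^d`. Let
`Phase n k` be the class of all real functions `φ` of class `C^∞` with compact support in the unit
ball of `ℝ^n` whose derivatives of order at most `k` are bounded by `1`. We consider the functions
`e^{iRφ}` on the ball of radius `R`, and the estimate with loss `τ`,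

  `∫_{B_R} |ext (e^{iRφ})|^q ≤ C R^τ`  for all `φ ∈ Phase n k` and all `R ≥ 1`.

* If it holds with a loss `τ < 1` then `∫_{B_R} |ext f|^q ≤ C R^{kτ}` for all measurable `|f| ≤ 1`.
* For every `p ≥ 2`, `‖ext f‖_q ≤ C_q ‖f‖_∞` holds for all `q > p` (without any loss, on the whole
  space, for all bounded `f`) if and only if for every `ε > 0` there is some `k` such that the
  estimate above holds for `C^k` phases with the exponent `p` and the loss `ε / k`.
* Hence Q1 is equivalent to the bounds `R^{o(1/k)}`, at the exponent `2d/(d-1)`, for the phases with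
  `k` bounded derivatives. (In dimension `d = 3` the bounds `R^{O(1/k)}` are known.)

The proof contains a complete proof of the removal of the losses `R^ε` (Tao) for the paraboloid in all
dimensions.
-/

open MeasureTheory Set Filter Metric
open scoped ENNReal NNReal Topology ContDiff

namespace Pool.Agent.Results.MP_b7167f_an.FinitelySmoothPhases

/-- Euclidean space `ℝ^n` -/
abbrev Eu (n : ℕ) := EuclideanSpace ℝ (Fin n)

/-- the cube `[-1,1]^n` -/
def cube (n : ℕ) : Set (Eu n) := {ξ | ∀ i, |ξ i| ≤ 1}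

/-- the extension operator of the paraboloid in `ℝ^d = ℝ^n × ℝ` -/
noncomputable def ext {n : ℕ} (f : Eu n → ℂ) (x : Eu n × ℝ) : ℂ :=
  ∫ ξ in cube n, f ξ *
    Complex.exp ((2 * Real.pi * (inner ℝ ξ x.1 + ‖ξ‖ ^ 2 * x.2) : ℝ) * Complex.I)

/-- the integral of `|F|^q` over `|x| ≤ R`, `|t| ≤ R` is at most `C R^τ` -/
def GrowthAt {n : ℕ} (q τ : ℝ) (F : Eu n × ℝ → ℂ) (C : ℝ≥0) (R : ℝ) : Prop :=
  ∫⁻ x in closedBall (0 : Eu n × ℝ) R, ‖F x‖ₑ ^ q ≤ C * ENNReal.ofReal (R ^ τ)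

/-- the extension estimate for all bounded functions, without loss -/
def Estimate (n : ℕ) (q : ℝ) : Prop :=
  ∃ C : ℝ≥0, ∀ f : Eu n → ℂ, Measurable f → (∀ ξ, ‖f ξ‖ ≤ 1) → (∫⁻ x, ‖ext f x‖ₑ ^ q) ≤ C

/-- the extension estimate with the loss `R^τ` for all bounded functions -/
def Loss (n : ℕ) (q τ : ℝ) : Prop :=
  ∃ C : ℝ≥0, ∀ f : Eu n → ℂ, Measurable f → (∀ ξ, ‖f ξ‖ ≤ 1) →
    ∀ R : ℝ, 1 ≤ R → GrowthAt q τ (ext f) C R

/-- smooth real functions with compact support in the unit ball, whose derivatives of order at most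
`k` are bounded by one -/
def Phase (n k : ℕ) (φ : Eu n → ℝ) : Prop :=
  ContDiff ℝ ∞ φ ∧ tsupport φ ⊆ ball 0 1 ∧ ∀ j ≤ k, ∀ ξ, ‖iteratedFDeriv ℝ j φ ξ‖ ≤ 1

/-- the estimate with the loss `R^τ` for the functions `e^{iRφ}` on the ball of radius `R` -/
def PhaseLoss (n k : ℕ) (q τ : ℝ) : Prop :=
  ∃ C : ℝ≥0, ∀ φ : Eu n → ℝ, Phase n k φ → ∀ R : ℝ, 1 ≤ R →
    GrowthAt q τ (ext fun ξ => Complex.exp ((R * φ ξ : ℝ) * Complex.I)) C R

/-- the exponent `2d/(d-1)`, `d = n + 1` -/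
noncomputable def critical (n : ℕ) : ℝ := 2 * ((n : ℝ) + 1) / n

theorem phaseLoss_iff {n k : ℕ} {q τ : ℝ} : PhaseLoss n k q τ ↔ Pool.Agent.H222.ER.SL n k q τ := by
  constructor
  · rintro ⟨C, hC⟩
    refine ⟨C, fun φ h1 h2 h3 R hR => ?_⟩
    have := hC φ ⟨h1, h2, h3⟩ R hR
    unfold Pool.Agent.H222.ER.NN
    rw [← Pool.Agent.H222.ER.TP_uni]
    exact this
  · rintro ⟨C, hC⟩
    refine ⟨C, fun φ ⟨h1, h2, h3⟩ R hR => ?_⟩
    have := hC φ h1 h2 h3 R hR
    unfold Pool.Agent.H222.ER.NN at this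
    rw [← Pool.Agent.H222.ER.TP_uni] at this
    exact this

theorem equivalence {n : ℕ} (hn : 1 ≤ n) {p : ℝ} (hp : 2 ≤ p) :
    (∀ q : ℝ, p < q → Estimate n q) ↔
      ∀ ε : ℝ, 0 < ε → ∃ k : ℕ, 1 ≤ k ∧ PhaseLoss n k p (ε / k) := by
  simp only [phaseLoss_iff]
  exact Pool.Agent.H222.ER.GE_iff_SL hn hp

theorem critical_ge {n : ℕ} (hn : 1 ≤ n) : 2 ≤ critical n := by
  unfold critical
  have h : (0 : ℝ) < n := by exact_mod_cast hn
  rw [le_div_iff₀ h]
  linarith

/-- **The restriction conjecture and phases with finitely many bounded derivatives.** -/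
theorem result :
    -- from phases with loss `τ` to all bounded functions with loss `kτ`
    (∀ (n k : ℕ) (q τ : ℝ), 1 ≤ k → 1 ≤ q → τ < 1 → PhaseLoss n k q τ → Loss n q (k * τ)) ∧
    -- all exponents
    (∀ (n : ℕ) (p : ℝ), 1 ≤ n → 2 ≤ p → ((∀ q : ℝ, p < q → Estimate n q) ↔
      ∀ ε : ℝ, 0 < ε → ∃ k : ℕ, 1 ≤ k ∧ PhaseLoss n k p (ε / k))) ∧
    -- Q1, with `d = n + 1`
    ((∀ n : ℕ, 2 ≤ n → ∀ q : ℝ, critical n < q → Estimate n q) ↔
      ∀ n : ℕ, 2 ≤ n → ∀ ε : ℝ, 0 < ε → ∃ k : ℕ, 1 ≤ k ∧ PhaseLoss n k (critical n) (ε / k)) := by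
  refine ⟨fun n k q τ hk hq hτ h => ?_, fun n p hn hp => equivalence hn hp, ?_⟩
  · exact Pool.Agent.H222.ER.Est_of_SL hq hk hτ (phaseLoss_iff.1 h)
  · constructor
    · exact fun h n hn => (equivalence (by omega) (critical_ge (by omega))).1 (h n hn)
    · exact fun h n hn => (equivalence (by omega) (critical_ge (by omega))).2 (h n hn)

end Pool.Agent.Results.MP_b7167f_an.FinitelySmoothPhases
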